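import Pool.Agent.W247.ET.Stm

/-! Project ET (owner helper247), part VA. -/

set_option autoImplicit false

open Finset MeasureTheory

namespace Pool.Agent.W418.ET.VA

open Pool.Agent.W247.ET

theorem geo (M : ℕ) : ∑ n ∈ Icc 1 M, Real.exp (-((n : ℝ) / 100)) ≤ 100 := by
  set x : ℝ := Real.exp (-(1 / 100)) with hx
  have hx0 : 0 < x := Real.exp_pos _
  have hx1 : 101 * x ≤ 100 := by
    have h1 : (1 / 100 : ℝ) + 1 ≤ Real.exp (1 / 100) := Real.add_one_le_exp _
    have h2 : x * Real.exp (1 / 100) = 1 := by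
      rw [hx, ← Real.exp_add]; norm_num
    nlinarith
  have e : ∀ n : ℕ, Real.exp (-((n : ℝ) / 100)) = x ^ n := by
    intro n
    rw [hx, ← Real.exp_nat_mul]
    congr 1
    ring
  have key : ∀ M : ℕ, (∑ n ∈ Icc 1 M, x ^ n) * (1 - x) = x - x ^ (M + 1) := by
    intro M
    induction M with
    | zero => simp
    | succ M ih =>
      rw [Finset.sum_Icc_succ_top (by omega), add_mul, ih]
      ring
  simp only [e]
  have h3 := key M
  have h4 : 0 < 1 - x := by linarith
  have h5 : 0 < x ^ (M + 1) := by positivity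
  by_contra hcon
  push Not at hcon
  nlinarith

theorem main (h1 : VA1_stmt) (h2 : VA2_stmt) : VA_stmt := by
  intro K
  refine ⟨101 * K, fun B N hB hK => ?_⟩
  rcases Nat.eq_zero_or_pos N with rfl | hN
  · have hB0 : B = ∅ := by
      rw [← Finset.subset_empty]
      simpa using hB
    subst hB0
    simp [VV]
  have hN' : (0 : ℝ) < N := by exact_mod_cast hN
  obtain ⟨i1, e1, i2, e2⟩ := h1 B N hB
  have hp := h2 K B N hB hK
  set Z := (Icc 1 N).filter (fun n => rep B n = 0) with hZ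
  set f1 : ℝ → ℝ := fun y => 3 / 5 * (y * Hh B N y ^ 2) with hf1
  set f2 : ℝ → ℝ := fun y => 20 * K * ∑ n ∈ Z, Real.exp (-(2 * (n : ℝ) * y)) with hf2
  set f3 : ℝ → ℝ := (Set.Ioc (0 : ℝ) (2 / N)).indicator (fun _ => (K : ℝ) * N / 2) with hf3
  set f4 : ℝ → ℝ := (Set.Ioi (1 / 100 : ℝ)).indicator
    (fun y => (K : ℝ) * ∑ n ∈ Icc 1 (2 * N), Real.exp (-((n : ℝ) * y))) with hf4
  have hexp : ∀ (a c : ℝ), 0 < a → IntegrableOn (fun y => Real.exp (-(a * y))) (Set.Ioi c) ∧
      ∫ y in Set.Ioi c, Real.exp (-(a * y)) = Real.exp (-(a * c)) / a := by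
    intro a c ha
    have e : ∀ y : ℝ, -(a * y) = (-a) * y := fun y => by ring
    simp only [e]
    refine ⟨integrableOn_exp_mul_Ioi (by linarith) c, ?_⟩
    rw [integral_exp_mul_Ioi (by linarith) c]
    rw [div_neg, neg_div, neg_neg]
  have hpos : ∀ n ∈ Icc 1 (2 * N), (0 : ℝ) < n := fun n hn => by
    have := (mem_Icc.1 hn).1
    exact_mod_cast this
  have hposZ : ∀ n ∈ Z, (0 : ℝ) < 2 * (n : ℝ) := fun n hn => by
    have := (mem_Icc.1 (mem_filter.1 hn).1).1
    have h : (0 : ℝ) < n := by exact_mod_cast this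
    linarith
  have I1 : IntegrableOn f1 (Set.Ioi 0) := i2.const_mul _
  have I2 : IntegrableOn f2 (Set.Ioi 0) :=
    (integrable_finsetSum _ fun n hn => (hexp _ 0 (hposZ n hn)).1).const_mul _
  have I3 : IntegrableOn f3 (Set.Ioi 0) := by
    refine ((integrable_indicator_iff measurableSet_Ioc).2 ?_).integrableOn
    exact integrableOn_const (by simp)
  have I4' : IntegrableOn (fun y => (K : ℝ) * ∑ n ∈ Icc 1 (2 * N), Real.exp (-((n : ℝ) * y)))
      (Set.Ioi (1 / 100)) :=
    (integrable_finsetSum _ fun n hn => (hexp _ (1 / 100) (hpos n hn)).1).const_mul _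
  have I4 : IntegrableOn f4 (Set.Ioi 0) :=
    ((integrable_indicator_iff measurableSet_Ioi).2 I4').integrableOn
  have hsum0 : ∀ (S : Finset ℕ) (g : ℕ → ℝ), 0 ≤ ∑ n ∈ S, Real.exp (g n) := fun S g =>
    Finset.sum_nonneg fun n _ => (Real.exp_pos _).le
  have hle : ∀ y ∈ Set.Ioi (0 : ℝ), Dd B y ^ 2 ≤ f1 y + f2 y + f3 y + f4 y := by
    intro y hy
    have hy0 : 0 < y := hy
    obtain ⟨p1, p2, p3⟩ := hp y hy0
    have g1 : 0 ≤ f1 y := by
      simp only [hf1]; positivity
    have g2 : 0 ≤ f2 y := by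
      simp only [hf2]
      exact mul_nonneg (by positivity) (hsum0 _ _)
    have g3 : 0 ≤ f3 y := Set.indicator_nonneg (fun _ _ => by positivity) y
    have g4 : 0 ≤ f4 y := Set.indicator_nonneg
      (fun _ _ => mul_nonneg (by positivity) (hsum0 _ _)) y
    by_cases c1 : y < 2 / N
    · have : f3 y = (K : ℝ) * N / 2 := by
        rw [hf3, Set.indicator_of_mem]
        exact ⟨hy0, c1.le⟩
      linarith
    · by_cases c2 : 1 / 100 < y
      · have : f4 y = (K : ℝ) * ∑ n ∈ Icc 1 (2 * N), Real.exp (-((n : ℝ) * y)) := by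
          rw [hf4, Set.indicator_of_mem]
          exact c2
        linarith
      · have := p3 (not_lt.1 c1) (not_lt.1 c2)
        have e : f1 y + f2 y = 3 / 5 * (y * Hh B N y ^ 2) +
          20 * K * ∑ n ∈ Z, Real.exp (-(2 * (n : ℝ) * y)) := rfl
        linarith
  have hmono := setIntegral_mono_on i1 (((I1.add I2).add I3).add I4) measurableSet_Ioi hle
  rw [e1] at hmono
  refine hmono.trans ?_
  have s1 : ∫ y in Set.Ioi (0 : ℝ), f1 y = 3 / 5 *
      ∑ n ∈ Icc 1 (2 * N), ∑ m ∈ Icc 1 (2 * N), (rep B n : ℝ) * rep B m * kap n m := by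
    simp only [hf1]
    rw [integral_const_mul, e2]
  have s2 : ∫ y in Set.Ioi (0 : ℝ), f2 y = 10 * K * ∑ n ∈ Z, 1 / (n : ℝ) := by
    simp only [hf2]
    rw [integral_const_mul, integral_finsetSum _ fun n hn => (hexp _ 0 (hposZ n hn)).1]
    rw [Finset.sum_congr rfl fun n hn => (hexp _ 0 (hposZ n hn)).2]
    rw [Finset.mul_sum, Finset.mul_sum]
    refine Finset.sum_congr rfl fun n hn => ?_
    have := hposZ n hn
    have hn0 : (n : ℝ) ≠ 0 := by
      intro h0; rw [h0] at this; simp at this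
    simp only [mul_zero, neg_zero, Real.exp_zero]
    field_simp
    ring
  have s3 : ∫ y in Set.Ioi (0 : ℝ), f3 y = K := by
    rw [hf3, setIntegral_indicator measurableSet_Ioc]
    have e : Set.Ioi (0 : ℝ) ∩ Set.Ioc 0 (2 / (N : ℝ)) = Set.Ioc 0 (2 / (N : ℝ)) := by
      ext y; simp only [Set.mem_inter_iff, Set.mem_Ioi, Set.mem_Ioc]; tauto
    rw [e, setIntegral_const]
    simp only [Real.volume_real_Ioc, sub_zero, smul_eq_mul]
    rw [max_eq_left (by positivity)]
    field_simp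
  have s4 : ∫ y in Set.Ioi (0 : ℝ), f4 y ≤ 100 * K := by
    rw [hf4, setIntegral_indicator measurableSet_Ioi]
    have e : Set.Ioi (0 : ℝ) ∩ Set.Ioi (1 / 100) = Set.Ioi (1 / 100) := by
      ext y; simp only [Set.mem_inter_iff, Set.mem_Ioi]
      constructor
      · exact fun h => h.2
      · intro h; exact ⟨by linarith, h⟩
    rw [e, integral_const_mul, integral_finsetSum _ fun n hn => (hexp _ (1 / 100) (hpos n hn)).1]
    rw [Finset.sum_congr rfl fun n hn => (hexp _ (1 / 100) (hpos n hn)).2]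
    rw [mul_comm (100 : ℝ)]
    refine mul_le_mul_of_nonneg_left ((Finset.sum_le_sum fun n hn => ?_).trans (geo (2 * N)))
      (by positivity)
    have hn1 : (1 : ℝ) ≤ n := by
      have := (mem_Icc.1 hn).1
      exact_mod_cast this
    rw [mul_one_div]
    exact div_le_self (Real.exp_pos _).le hn1
  have hadd : ∫ y in Set.Ioi (0 : ℝ), (f1 y + f2 y + f3 y + f4 y) =
      (∫ y in Set.Ioi (0 : ℝ), f1 y) + (∫ y in Set.Ioi (0 : ℝ), f2 y) +
        (∫ y in Set.Ioi (0 : ℝ), f3 y) + ∫ y in Set.Ioi (0 : ℝ), f4 y := by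
    have a1 := integral_add I1 I2
    have a2 := integral_add (I1.add I2) I3
    have a3 := integral_add ((I1.add I2).add I3) I4
    simp only [Pi.add_apply] at a1 a2 a3
    rw [a3, a2, a1]
  calc _ = ∫ y in Set.Ioi (0 : ℝ), (f1 y + f2 y + f3 y + f4 y) := rfl
    _ ≤ _ := by
      rw [hadd, s1, s2, s3]
      linarith

end Pool.Agent.W418.ET.VA
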